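import Pool.Agent.R502.TQ.Fin2

/-!
# Prime moduli: long runs without primes in almost all classes of primes `r` and of `a r / d`

Fix `δ, λ, ε > 0` and `A`.  For every large prime `q` and every `X ≥ q ^ δ` with `2 X < q`, for all
but a proportion `ε` of the primes `r` in `(X, 2 X]`, a positive proportion of the blocks of
`λ log q` consecutive members `k q ± r` of the classes of `± r` modulo `q`, among the first `K`
blocks, contain no prime, and the same blocks are free of primes for all the rational multiples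
`± (a / d) r`, `1 ≤ a, d ≤ A`, simultaneously.

Proof: twisted residue classes (`Pool/Agent/R502/TQ`) and the Selberg type weights for blocks of
`Pool/Agent/R526/AA`; the Bombieri-Vinogradov theorem of the starting repository.
-/

set_option autoImplicit false

namespace Pool.Agent.Results.MP_e1dc24_nt.ClassesOfPrimes

open Finset

open Classical in
/-- For almost all primes `r ∈ (X, 2 X]` a positive proportion of the `K` blocks
`i L a < k ≤ (i + 1) L a`, `i < K`, is free: no prime `n > q` is such that
`d n = k q + a r` or `d n = k q - a r` with `1 ≤ a, d ≤ A` and `k` in the `i`-th block. -/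
theorem result (δ lam ε : ℝ) (hδ : 0 < δ) (hlam : 0 < lam) (hε : 0 < ε) (A : ℕ) :
    ∃ c : ℝ, 0 < c ∧ ∃ K₀ : ℕ, ∀ K : ℕ, K₀ ≤ K → ∃ q₀ : ℕ, ∀ q : ℕ, q₀ ≤ q → q.Prime →
      ∀ X : ℕ, (q : ℝ) ^ δ ≤ X → 2 * X < q → ∀ L : ℕ, (L : ℝ) ≤ lam * Real.log q →
      (((Ioc X (2 * X)).filter (fun r : ℕ => r.Prime ∧ (((range K).filter (fun i =>
        ∀ n d a k : ℕ, n.Prime → q < n → 1 ≤ d → d ≤ A → 1 ≤ a → a ≤ A →
          i * L * a < k → k ≤ (i + 1) * L * a →
          d * n ≠ k * q + a * r ∧ d * n ≠ k * q - a * r)).card : ℝ) < c * K)).card : ℝ) ≤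
        ε * Nat.primeCounting X :=
  Pool.Agent.R502.TQ.classes_almost δ lam ε hδ hlam hε A

end Pool.Agent.Results.MP_e1dc24_nt.ClassesOfPrimes
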