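import Pool.Agent.R501.PV5
import Pool.Agent.R501.LP1

/-!
# Least primes in almost all classes, for moduli which arise by a rearrangement of the digits of an integer

Definitions used from the starting file `Pool.Agent.TH872.An1` (namespace `Pool.Agent.TH872.An`): `Spread b k η d`: the
integers `d i` (`i < k`) are digits in base `b`, and no digit is taken at more than `(1 - η) k` of the `k` places;
`V b d σ`: the integer with the permuted digits, thus the integer with the digit `d (σ i)` at the place `i`, in base `b`.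
-/

set_option autoImplicit false

namespace Pool.Agent.Results.MP_e1dc24_nt.DigitPermutationModuli

open Finset Pool.Agent.TH872.An

open Classical in
/-- The number of the `c` with `0 ≤ c < m` and `gcd(c, m) = 1` for which no prime `p ≤ x` is congruent to `c` modulo
`m`; for `m ≥ 2` this is the number of the reduced classes with `p(c, m) > x`. -/
noncomputable def late (m : ℕ) (x : ℝ) : ℕ :=
  ((range m).filter (fun c => Nat.Coprime c m ∧ ∀ p : ℕ, p.Prime → (p : ℝ) ≤ x → ¬ p % m = c)).card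

/-- `ψ(x; m, c) = ∑_{n ≤ x, n ≡ c mod m} Λ(n)` for `0 ≤ c < m` -/
noncomputable def psiAP (x : ℝ) (m c : ℕ) : ℝ :=
  ∑ n ∈ (Icc 1 ⌊x⌋₊).filter (fun n => n % m = c), ArithmeticFunction.vonMangoldt n

open Classical in
/-- The number of the `c` with `0 ≤ c < m` and `gcd(c, m) = 1` with `|ψ(x; m, c) - x / φ(m)| ≥ η x / φ(m)`. -/
noncomputable def off (m : ℕ) (x η : ℝ) : ℕ :=
  ((range m).filter (fun c => Nat.Coprime c m ∧ η * (x / (Nat.totient m : ℝ)) ≤
    |psiAP x m c - x / (Nat.totient m : ℝ)|)).card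

/-- For all real `x = lam φ(m) log m` with `m ≤ x ≤ m (log m) ^ A`: the least prime `p(c, m)` is larger than `x` for at
most `(1 + ε) φ(m) / (1 + lam)` of the reduced classes `c`, and for all `η > 0` at most `(1 + ε) φ(m) / (η² lam)` of the
reduced classes `c` have `|ψ(x; m, c) - x / φ(m)| ≥ η x / φ(m)`. -/
def Good (ε : ℝ) (A m : ℕ) : Prop :=
  ∀ x : ℝ, (m : ℝ) ≤ x → x ≤ m * Real.log m ^ A →
    (late m x : ℝ) * (1 + x / (Nat.totient m * Real.log m)) ≤ (1 + ε) * Nat.totient m ∧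
    ∀ η : ℝ, 0 < η → (off m x η : ℝ) * (η ^ 2 * (x / (Nat.totient m * Real.log m))) ≤ (1 + ε) * Nat.totient m

lemma good_iff (ε : ℝ) (A m : ℕ) : Good ε A m ↔ Pool.Agent.R501.LP.LpG ε A m := Iff.rfl

open Classical in
/-- Let `b ≥ 2`, `B`, `A`, `U`, the integer `μ ≠ 0`, `ν > 0` and `0 < ε ≤ 1` be fixed, let `k` be large, let `d` be an
arbitrary sequence of `k` digits in base `b` none of which is taken at more than `(1 - ν) k` places, and let `c₀` be an
arbitrary integer with `|c₀| ≤ B b ^ k`.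

Then for all permutations `σ` of the `k` places, with at most `k! / k ^ U` exceptions, the modulus `m = c₀ + μ v_σ`, where
`v_σ` is the integer with the permuted digits, is smaller than `b ^ k / k ^ A` (possibly negative), or it has the
following property: for all real `x = lam φ(m) log m` with `m ≤ x ≤ m (log m) ^ A` one has `p(c, m) ≤ x` for all reduced
classes `c` modulo `m` with at most `(1 + ε) φ(m) / (1 + lam)` exceptions (in particular `p(c, m) ≤ m (log m) ^ A` with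
fewer than `(1 + ε) φ(m) / (log m) ^ (A - 1)` exceptions), and for all `η > 0` one has
`|ψ(x; m, c) - x / φ(m)| < η x / φ(m)` with at most `(1 + ε) φ(m) / (η² lam)` exceptions. -/
theorem result (b B A U : ℕ) (hb : 2 ≤ b) (μ : ℤ) (hμ : μ ≠ 0) (ν ε : ℝ) (hν : 0 < ν) (hε : 0 < ε) (hε1 : ε ≤ 1) :
    ∃ k₀ : ℕ, ∀ k : ℕ, k₀ ≤ k → ∀ d : Fin k → ℕ, Spread b k ν d → ∀ c₀ : ℤ, |c₀| ≤ B * (b : ℤ) ^ k →
      ((univ.filter (fun σ : Equiv.Perm (Fin k) => (b : ℤ) ^ k ≤ (c₀ + μ * V b d σ) * (k : ℤ) ^ A ∧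
        ¬ Good ε A (c₀ + μ * V b d σ).toNat)).card : ℝ) ≤ k.factorial / (k : ℝ) ^ U := by
  obtain ⟨k₀, h⟩ := Pool.Agent.R501.PV.perm_rare b B (A + 1) U hb μ hμ ν hν (ε / 4) (by linarith) (by linarith)
  obtain ⟨k₁, h1⟩ := Pool.Agent.R501.LP.badq_of_lp b (B + μ.natAbs) A hb ε hε hε1
  refine ⟨k₀ + k₁, fun k hk d hd c hc => ?_⟩
  refine h k (by omega) d hd c hc _ (fun σ hσ => ?_)
  refine h1 k (by omega) _ hσ.1 ?_ hσ.2
  have h2 : ((V b d σ : ℕ) : ℤ) ≤ (b : ℤ) ^ k := by exact_mod_cast (V_lt hd (by omega) σ).le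
  have h3 : ((B + μ.natAbs : ℕ) : ℤ) ≤ (b : ℤ) ^ (B + μ.natAbs) := by exact_mod_cast (Nat.lt_pow_self (by omega : 1 < b)).le
  calc c + μ * (V b d σ : ℕ) ≤ |c + μ * (V b d σ : ℕ)| := le_abs_self _
    _ ≤ |c| + |μ * (V b d σ : ℕ)| := abs_add_le _ _
    _ = |c| + |μ| * (V b d σ : ℕ) := by rw [abs_mul, abs_of_nonneg (Int.natCast_nonneg _)]
    _ ≤ B * (b : ℤ) ^ k + |μ| * (b : ℤ) ^ k := add_le_add hc (mul_le_mul_of_nonneg_left h2 (abs_nonneg μ))
    _ = ((B + μ.natAbs : ℕ) : ℤ) * (b : ℤ) ^ k := by push_cast; ring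
    _ ≤ (b : ℤ) ^ (B + μ.natAbs) * (b : ℤ) ^ k := mul_le_mul_of_nonneg_right h3 (by positivity)
    _ = _ := by rw [← pow_add]; congr 1; ring

end Pool.Agent.Results.MP_e1dc24_nt.DigitPermutationModuli
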