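import Pool.Agent.R516.QI

/-!
Least primes `p(c, m) ≤ m (log m) ^ B` for every large modulus `m`: a proportion `5 / 18 - ε` of the
reduced classes in every interval of length at least `m / (log m) ^ C`, and of the reduced classes in
almost every translate of every set of at least `m / (log m) ^ C` classes.
-/

set_option autoImplicit false

namespace Pool.Agent.Results.MP_e1dc24_nt.FiveEighteenths

open Finset

/-- For all `ε > 0` and `C` there are `B` and `m₀` such that for every modulus `m ≥ m₀`: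

(i) every interval `(x, x + H]` with `m / (log m) ^ C ≤ H ≤ m` contains at least
`(5 / 18 - ε) (φ(m) / m) H` integers `c` prime to `m` for which some prime `p ≡ c (mod m)` satisfies
`p ≤ m (log m) ^ B`;

(ii) for every set `A` of at least `m / (log m) ^ C` classes, and all `b < m` outside a set of at most
`m / (log m) ^ C` elements, there are at least
`(5 / 18 - ε) #{a ∈ A : (a + b, m) = 1} - #A / (log m) ^ C` elements `a` of `A` for which `a + b` is prime
to `m` and some prime `p ≡ a + b (mod m)` satisfies `p ≤ m (log m) ^ B`. -/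
theorem result (ε : ℝ) (hε : 0 < ε) (C : ℕ) : ∃ B m₀ : ℕ, ∀ m : ℕ, m₀ ≤ m →
    (∀ x H : ℕ, (m : ℝ) / Real.log m ^ C ≤ H → H ≤ m →
      (5 / 18 - ε) * ((Nat.totient m : ℝ) / m * H) ≤
        ({c : ℕ | x < c ∧ c ≤ x + H ∧ c.Coprime m ∧
          ∃ p : ℕ, p.Prime ∧ p ≡ c [MOD m] ∧ (p : ℝ) ≤ m * Real.log m ^ B}.ncard : ℝ)) ∧
    (∀ A : Finset ℕ, (∀ a ∈ A, a < m) → (m : ℝ) / Real.log m ^ C ≤ A.card →
      ∃ E : Finset ℕ, (E.card : ℝ) ≤ m / Real.log m ^ C ∧ ∀ b : ℕ, b < m → b ∉ E →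
        (5 / 18 - ε) * ({a : ℕ | a ∈ A ∧ (a + b).Coprime m}.ncard : ℝ) - A.card / Real.log m ^ C ≤
          ({a : ℕ | a ∈ A ∧ (a + b).Coprime m ∧
            ∃ p : ℕ, p.Prime ∧ p ≡ a + b [MOD m] ∧ (p : ℝ) ≤ m * Real.log m ^ B}.ncard : ℝ)) := by
  classical
  obtain ⟨B, hB⟩ := Pool.Agent.R516.poly5 ε hε C
  obtain ⟨m₀, hm₀⟩ := Filter.eventually_atTop.1 hB
  refine ⟨B, m₀, fun m hm => ⟨fun x H hH hHm => ?_, fun A hA hAc => ?_⟩⟩
  · refine ((hm₀ m hm).1 x H hH hHm).trans (le_of_eq ?_)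
    rw [← Set.ncard_coe_finset]
    congr 2
    ext c
    rw [mem_coe, mem_filter, mem_Ioc, Set.mem_setOf_eq, and_assoc]
    rfl
  · obtain ⟨E, _, hE2, hE3⟩ := (hm₀ m hm).2 A hA hAc
    refine ⟨E, hE2, fun b hb hbE => ?_⟩
    have h := hE3 b (mem_range.2 hb) hbE
    have e1 : ({a : ℕ | a ∈ A ∧ (a + b).Coprime m}.ncard : ℝ) =
        ((A.filter (fun a => (a + b).Coprime m)).card : ℝ) := by
      rw [← Set.ncard_coe_finset]
      congr 2
      ext a
      rw [mem_coe, mem_filter, Set.mem_setOf_eq]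
    have e2 : ({a : ℕ | a ∈ A ∧ (a + b).Coprime m ∧
            ∃ p : ℕ, p.Prime ∧ p ≡ a + b [MOD m] ∧ (p : ℝ) ≤ m * Real.log m ^ B}.ncard : ℝ) =
        ((A.filter (fun a => Pool.Agent.TH847.LM.Good m B (a + b))).card : ℝ) := by
      rw [← Set.ncard_coe_finset]
      congr 2
      ext a
      rw [mem_coe, mem_filter, Set.mem_setOf_eq]
      rfl
    rw [e1, e2]
    convert h using 4

end Pool.Agent.Results.MP_e1dc24_nt.FiveEighteenths
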