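import Pool.Agent.Results.MP_5d318d_nt.ThinFamilyModuli
import Pool.Agent.TH872.GQ.Fam
import Pool.Agent.R501.LP1

/-!
# Least primes in almost all classes, for quadratic moduli at integers with restricted digits

Definitions used (in `Pool.Agent.TH872.GQ`): `S b D k`: the integers below `b ^ k` whose `i`-th digit in base `b`
lies in `D i`, for all `i < k`; `value κ β c n = c + κ n ^ 2 + β n`.
-/

set_option autoImplicit false

namespace Pool.Agent.Results.MP_e1dc24_nt.QuadraticModuli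

open Finset Pool.Agent.TH872.GQ

open Classical in
/-- The number of the `c` with `0 ≤ c < m` and `gcd(c, m) = 1` for which no prime `p ≤ x` is congruent to `c` modulo
`m`; for `m ≥ 2` this is the number of the reduced classes with `p(c, m) > x`. -/
noncomputable def late (m : ℕ) (x : ℝ) : ℕ :=
  ((range m).filter (fun c => Nat.Coprime c m ∧ ∀ p : ℕ, p.Prime → (p : ℝ) ≤ x → ¬ p % m = c)).card

/-- `ψ(x; m, c) = ∑_{n ≤ x, n ≡ c mod m} Λ(n)` for `0 ≤ c < m` -/
noncomputable def psiAP (x : ℝ) (m c : ℕ) : ℝ :=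
  ∑ n ∈ (Icc 1 ⌊x⌋₊).filter (fun n => n % m = c), ArithmeticFunction.vonMangoldt n

open Classical in
/-- The number of the `c` with `0 ≤ c < m` and `gcd(c, m) = 1` with `|ψ(x; m, c) - x / φ(m)| ≥ η x / φ(m)`. -/
noncomputable def off (m : ℕ) (x η : ℝ) : ℕ :=
  ((range m).filter (fun c => Nat.Coprime c m ∧ η * (x / (Nat.totient m : ℝ)) ≤
    |psiAP x m c - x / (Nat.totient m : ℝ)|)).card

/-- For all real `x = lam φ(m) log m` with `m ≤ x ≤ m (log m) ^ A`: the least prime `p(c, m)` is larger than `x` for at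
most `(1 + ε) φ(m) / (1 + lam)` of the reduced classes `c`, and for all `η > 0` at most `(1 + ε) φ(m) / (η² lam)` of the
reduced classes `c` have `|ψ(x; m, c) - x / φ(m)| ≥ η x / φ(m)`. -/
def Good (ε : ℝ) (A m : ℕ) : Prop :=
  ∀ x : ℝ, (m : ℝ) ≤ x → x ≤ m * Real.log m ^ A →
    (late m x : ℝ) * (1 + x / (Nat.totient m * Real.log m)) ≤ (1 + ε) * Nat.totient m ∧
    ∀ η : ℝ, 0 < η → (off m x η : ℝ) * (η ^ 2 * (x / (Nat.totient m * Real.log m))) ≤ (1 + ε) * Nat.totient m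

lemma good_iff (ε : ℝ) (A m : ℕ) : Good ε A m ↔ Pool.Agent.R501.LP.LpG ε A m := Iff.rfl

open Classical in
/-- Let `b ≥ 2`, integers `κ ≠ 0` and `β`, and `B`, `A`, `U` and `0 < ε ≤ 1` be fixed, and let `k` be large. Let
`D 0, …, D (k - 1)` be arbitrary sets of at least two digits in base `b`, let `S` be the set of the integers below
`b ^ k` whose `i`-th digit lies in `D i` for all `i < k`, and let `c₀` be an arbitrary integer with `|c₀| ≤ B b ^ (2 k)`.
Then all the moduli `m = c₀ + κ n ^ 2 + β n`, `n ∈ S`, which are positive, except for those for at most `#S / k ^ U` of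
the `n ∈ S`, have the following property: for all real `x = lam φ(m) log m` with `m ≤ x ≤ m (log m) ^ A` one has
`p(c, m) ≤ x` for all reduced classes `c` modulo `m` with at most `(1 + ε) φ(m) / (1 + lam)` exceptions (in particular
`p(c, m) ≤ m (log m) ^ A` with fewer than `(1 + ε) φ(m) / (log m) ^ (A - 1)` exceptions), and for all `η > 0` one has
`|ψ(x; m, c) - x / φ(m)| < η x / φ(m)` with at most `(1 + ε) φ(m) / (η² lam)` exceptions. -/
theorem result (b B A U : ℕ) (hb : 2 ≤ b) (κ β : ℤ) (hκ : κ ≠ 0) (ε : ℝ) (hε : 0 < ε) (hε1 : ε ≤ 1) :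
    ∃ k₀ : ℕ, ∀ k : ℕ, k₀ ≤ k → ∀ D : ℕ → Finset ℕ, (∀ i < k, D i ⊆ range b ∧ 2 ≤ (D i).card) →
      ∀ c₀ : ℤ, |c₀| ≤ B * (b : ℤ) ^ (2 * k) →
      (((S b D k).filter (fun n => 0 < value κ β c₀ n ∧ ¬ Good ε A (value κ β c₀ n).toNat)).card : ℝ) ≤
        (S b D k).card / (k : ℝ) ^ U := by
  obtain ⟨h, B', k1, hh, hB1, hBB, hfam⟩ := fam b hb κ β hκ B
  obtain ⟨W, k2, hsm⟩ := small b hb κ β hκ B' U
  obtain ⟨n3, h3⟩ := Pool.Agent.Results.MP_5d318d_nt.ThinFamilyModuli.first h 1 (max W A) (U + 1) (ε / 4) (by linarith) (by linarith)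
  obtain ⟨Q₀, h4⟩ := Pool.Agent.R501.LP.lpg_of_var A ε hε hε1
  obtain ⟨n5, h5⟩ := Pool.Agent.H373R2.T7.ev_log' (max W A) ((Q₀ + 3 : ℕ) : ℝ)
  refine ⟨k1 + k2 + n3 + n5 + 2, fun k hk D hD c hc => ?_⟩
  obtain ⟨f1, f2, f3, f4⟩ := hfam k (by omega) D hD c hc
  obtain ⟨N, hN⟩ : ∃ N : ℕ, N = B' * b ^ (2 * k) := ⟨_, rfl⟩
  have hk1 : (1 : ℝ) ≤ k := by exact_mod_cast (by omega : 1 ≤ k)
  have hkN : k ≤ N := by
    rw [hN]
    calc k ≤ 2 * k := by omega
      _ ≤ b ^ (2 * k) := (Nat.lt_pow_self (by omega)).le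
      _ ≤ _ := Nat.le_mul_of_pos_left _ (by omega)
  have hbig := h5 N (by omega)
  have r1 := hsm (max W A) (le_max_left _ _) k (by omega) D hD c (fun n => 0 < value κ β c n ∧
    ((value κ β c n : ℤ) : ℝ) * Real.log ((B' * b ^ (2 * k) : ℕ) : ℝ) ^ (max W A) < ((B' * b ^ (2 * k) : ℕ) : ℝ)) (fun n hn => hn)
  rw [← hN] at f1 f2 f3 r1
  have hfc : Fintype.card {n // n ∈ S b D k} = (S b D k).card := Fintype.card_coe _
  have r2 := h3 N (by omega) {n // n ∈ S b D k} (fun i => value κ β c i.1) f1 f2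
  rw [hfc] at r2
  have r3 := r2.trans (pow_of_log _ _ (Nat.cast_nonneg _) k (U + 1) (by omega) f3)
  unfold Pool.Agent.Results.MP_5d318d_nt.ThinFamilyModuli.exceptions at r3
  have r4 := conv (S b D k) (fun n => 0 < value κ β c n ∧ (N : ℝ) ≤ ((value κ β c n : ℤ) : ℝ) * Real.log N ^ (max W A) ∧
    ¬ Good ε A (value κ β c n).toNat) _ (fun i hi => ⟨hi.1, hi.2.1, fun hg => hi.2.2 (by
      have h5 : ((value κ β c i.1 : ℤ) : ℝ) = (((value κ β c i.1).toNat : ℕ) : ℝ) := by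
        have : (((value κ β c i.1).toNat : ℕ) : ℤ) = value κ β c i.1 := Int.toNat_of_nonneg hi.1.le
        exact_mod_cast this.symm
      have h6 := hi.2.1
      rw [h5] at h6
      have hN0 : (0 : ℝ) < N := by exact_mod_cast (by omega : 0 < N)
      have hN1 : (1 : ℝ) ≤ N := by exact_mod_cast (by omega : 1 ≤ N)
      have hsq : √(N : ℝ) * √(N : ℝ) = N := Real.mul_self_sqrt hN0.le
      have hs0 : 0 < √(N : ℝ) := Real.sqrt_pos.2 hN0
      have hs1 : 1 ≤ √(N : ℝ) := by rw [Real.one_le_sqrt]; exact hN1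
      have hp0 : 0 ≤ Real.log (N : ℝ) ^ (max W A) := pow_nonneg (Real.log_natCast_nonneg _) _
      have h7 : ((Q₀ + 3 : ℕ) : ℝ) ≤ (((value κ β c i.1).toNat : ℕ) : ℝ) := by
        by_contra hcon
        push Not at hcon
        have h8 : (N : ℝ) ≤ ((Q₀ + 3 : ℕ) : ℝ) * Real.log (N : ℝ) ^ (max W A) := h6.trans (mul_le_mul_of_nonneg_right hcon.le hp0)
        have h9 : √(N : ℝ) * √(N : ℝ) ≤ √(N : ℝ) * 1 := by rw [hsq, mul_one]; linarith
        have h10 : √(N : ℝ) ≤ 1 := le_of_mul_le_mul_left h9 hs0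
        have h11 : √(N : ℝ) = 1 := le_antisymm h10 hs1
        rw [h11, one_mul] at hsq
        have h12 : 2 ≤ N := by omega
        have h13 : (2 : ℝ) ≤ N := by exact_mod_cast h12
        linarith
      have h8 : Q₀ + 3 ≤ (value κ β c i.1).toNat := by exact_mod_cast h7
      rw [good_iff, ← Pool.Agent.R501.LP.lpg_iff ε A _ (by omega)]
      apply h4 _ (by omega)
      intro x hx1 hx2
      refine hg x hx1 (hx2.trans ?_)
      have hQ0 : (0 : ℝ) ≤ ((value κ β c i.1).toNat : ℝ) := Nat.cast_nonneg _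
      apply mul_le_mul_of_nonneg_left _ hQ0
      have hQ1 : 1 ≤ (value κ β c i.1).toNat := by omega
      have hQN : (value κ β c i.1).toNat ≤ N := by
        have h5 := (abs_le.1 (f1 i)).2
        omega
      have hlog : Real.log ((value κ β c i.1).toNat : ℝ) ≤ Real.log N :=
        Real.log_le_log (by exact_mod_cast hQ1) (by exact_mod_cast hQN)
      have hlog0 : 0 ≤ Real.log ((value κ β c i.1).toNat : ℝ) := Real.log_natCast_nonneg _
      calc Real.log ((value κ β c i.1).toNat : ℝ) ^ A ≤ Real.log N ^ A := pow_le_pow_left₀ hlog0 hlog A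
        _ ≤ Real.log N ^ (max W A) := pow_le_pow_right₀ (by linarith) (le_max_right _ _))⟩) _ r3
  refine add_small (S b D k) _ _ _ k U (by omega) ?_ r1 r4
  intro n _ hn
  rcases lt_or_ge (((value κ β c n : ℤ) : ℝ) * Real.log N ^ (max W A)) N with h5 | h5
  · exact Or.inl ⟨hn.1, h5⟩
  · exact Or.inr ⟨hn.1, h5, hn.2⟩

end Pool.Agent.Results.MP_e1dc24_nt.QuadraticModuli
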